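import Pool.Agent.H28.N6.Targets

set_option autoImplicit false
open MeasureTheory Pool.Agent.H28.N6

namespace Pool.Agent.H17.N6D

section

variable {F : Type} [NontriviallyNormedField F] [IsUltrametricDist F] [ProperSpace F]
    [MeasurableSpace F] [BorelSpace F]

theorem qf_cont {n : ℕ} (A : Matrix (Fin n) (Fin n) F) : Continuous (fun z => qf A z) := by
  unfold qf
  simp only [dotProduct, Matrix.mulVec]
  fun_prop

theorem dir_congr (D : Dat F) (x y x' y' : F) (m : ℕ) (hx : ‖x' - x‖ ≤ ‖D.p‖ ^ m)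
    (hy : ‖y' - y‖ ≤ ‖D.p‖ ^ m) : dir D x' y' m = dir D x y m := by
  have key : ∀ (u v a : F), ‖v - u‖ ≤ ‖D.p‖ ^ m → ‖u‖ ≤ ‖D.p‖ ^ m → ‖v‖ ≤ ‖D.p‖ ^ m := by
    intro u v _ huv hu
    have e : v = (v - u) + u := by ring
    rw [e]
    exact (IsUltrametricDist.norm_add_le_max _ _).trans (max_le huv hu)
  have h1 : {t : F | ‖t‖ ≤ 1 ∧ ‖x' + t * y'‖ ≤ ‖D.p‖ ^ m} =
      {t : F | ‖t‖ ≤ 1 ∧ ‖x + t * y‖ ≤ ‖D.p‖ ^ m} := by
    ext t
    simp only [Set.mem_setOf_eq]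
    refine and_congr_right fun ht => ?_
    have h : ‖(x' + t * y') - (x + t * y)‖ ≤ ‖D.p‖ ^ m := by
      have e : (x' + t * y') - (x + t * y) = (x' - x) + t * (y' - y) := by ring
      rw [e]
      refine (IsUltrametricDist.norm_add_le_max _ _).trans (max_le hx ?_)
      rw [norm_mul]
      calc ‖t‖ * ‖y' - y‖ ≤ 1 * ‖y' - y‖ := mul_le_mul_of_nonneg_right ht (norm_nonneg _)
        _ ≤ _ := by rwa [one_mul]
    constructor
    · intro h2
      refine key (x' + t * y') _ t ?_ h2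
      rwa [norm_sub_rev]
    · exact key _ _ t h
  have h2 : {t : F | ‖t‖ ≤ ‖D.p‖ ∧ ‖t * x' + y'‖ ≤ ‖D.p‖ ^ m} =
      {t : F | ‖t‖ ≤ ‖D.p‖ ∧ ‖t * x + y‖ ≤ ‖D.p‖ ^ m} := by
    ext t
    simp only [Set.mem_setOf_eq]
    refine and_congr_right fun ht => ?_
    have h : ‖(t * x' + y') - (t * x + y)‖ ≤ ‖D.p‖ ^ m := by
      have e : (t * x' + y') - (t * x + y) = t * (x' - x) + (y' - y) := by ring
      rw [e]
      refine (IsUltrametricDist.norm_add_le_max _ _).trans (max_le ?_ hy)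
      rw [norm_mul]
      calc ‖t‖ * ‖x' - x‖ ≤ 1 * ‖x' - x‖ :=
            mul_le_mul_of_nonneg_right (ht.trans D.p1.le) (norm_nonneg _)
        _ ≤ _ := by rwa [one_mul]
    constructor
    · intro h2
      refine key (t * x' + y') _ t ?_ h2
      rwa [norm_sub_rev]
    · exact key _ _ t h
  unfold dir
  rw [h1, h2]

theorem dir_cont (D : Dat F) (A B : Matrix (Fin 4) (Fin 4) F) (m : ℕ) :
    Continuous (fun z : Fin 4 → F => dir D (qf A z) (qf B z) m) := by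
  apply IsLocallyConstant.continuous
  rw [IsLocallyConstant.iff_eventually_eq]
  intro z
  have hp : 0 < ‖D.p‖ ^ m := pow_pos (norm_pos_iff.2 D.p0) m
  have h1 := ((qf_cont A).tendsto z).eventually (Metric.closedBall_mem_nhds (qf A z) hp)
  have h2 := ((qf_cont B).tendsto z).eventually (Metric.closedBall_mem_nhds (qf B z) hp)
  filter_upwards [h1, h2] with w hw1 hw2
  exact dir_congr D _ _ _ _ m (by simpa [dist_eq_norm] using hw1)
    (by simpa [dist_eq_norm] using hw2)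

theorem dir_TT (D : Dat F) (hDIR : T_DIR) (hNRM : T_NRM) (x y : F) (m : ℕ) :
    TT D.q (dir D x y) m =
      (if max ‖x‖ ‖y‖ ≤ ‖D.p‖ ^ m then (D.q : ℝ)⁻¹ else 0) -
      (if max ‖x‖ ‖y‖ ≤ ‖D.p‖ ^ (m + 2) then (D.q : ℝ) ^ 3 else 0) := by
  obtain ⟨h1, h2, h3⟩ := hDIR F D x y m
  have hp0 : 0 < ‖D.p‖ := norm_pos_iff.2 D.p0
  have hp1 : ‖D.p‖ < 1 := D.p1
  have hq2 : (2 : ℝ) ≤ D.q := by exact_mod_cast D.hq
  rcases lt_or_ge (‖D.p‖ ^ m) (max ‖x‖ ‖y‖) with hc | hc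
  · have h4 : ‖D.p‖ ^ (m + 2) < max ‖x‖ ‖y‖ :=
      lt_of_le_of_lt (pow_le_pow_of_le_one hp0.le hp1.le (Nat.le_add_right _ _)) hc
    rw [h1 hc, if_neg (not_le.2 hc), if_neg (not_le.2 h4), sub_zero]
  · rw [if_pos hc]
    rcases le_or_gt (‖D.p‖ ^ (m + 1)) (max ‖x‖ ‖y‖) with hd | hd
    · have h4 : ‖D.p‖ ^ (m + 2) < max ‖x‖ ‖y‖ :=
        lt_of_lt_of_le (pow_lt_pow_right_of_lt_one₀ hp0 hp1 (by omega)) hd
      rw [h2 hc hd, if_neg (not_le.2 h4), sub_zero]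
    · have h5 : ∀ w : F, ‖w‖ < ‖D.p‖ ^ (m + 1) → ‖w‖ ≤ ‖D.p‖ ^ (m + 2) := by
        intro w hw
        rcases eq_or_ne w 0 with rfl | hw0
        · rw [norm_zero]
          positivity
        · obtain ⟨k, hk⟩ := hNRM F D w hw0
          rw [hk] at hw ⊢
          rw [← zpow_natCast] at hw ⊢
          rw [zpow_lt_zpow_iff_right_of_lt_one₀ hp0 hp1] at hw
          rw [zpow_le_zpow_iff_right_of_lt_one₀ hp0 hp1]
          push_cast at hw ⊢
          omega
      have h4 : max ‖x‖ ‖y‖ ≤ ‖D.p‖ ^ (m + 2) :=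
        max_le (h5 x (lt_of_le_of_lt (le_max_left _ _) hd))
          (h5 y (lt_of_le_of_lt (le_max_right _ _) hd))
      rw [h3 h4, if_pos h4]
      field_simp
      ring

end

theorem pf_AVG (hAVF : T_AVF) (hDIR : T_DIR) (hMSC : T_MSC) (hMEA : T_MEA) (hNRM : T_NRM)
    (hBAL : T_BAL) : T_AVG := by
  intro F _ _ _ _ _ D A B hAB
  obtain ⟨m0, hm0⟩ := hMSC F D A B hAB
  refine ⟨m0, fun m hm => ?_⟩
  haveI := D.haar
  have hq2 : (2 : ℝ) ≤ D.q := by exact_mod_cast D.hq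
  set ν : Measure (Fin 4 → F) := Measure.pi (fun _ : Fin 4 => D.μ) with hν
  set bx : Set (Fin 4 → F) := {z | ∀ i, ‖z i‖ ≤ 1} with hbx
  have hbxe : bx = Metric.closedBall (0 : Fin 4 → F) 1 := by
    ext z
    rw [Metric.mem_closedBall, dist_zero_right, pi_norm_le_iff_of_nonneg zero_le_one]
    rfl
  have hbxc : IsCompact bx := by
    rw [hbxe]
    exact isCompact_closedBall _ _
  have hbxm : MeasurableSet bx := hbxc.isClosed.measurableSet
  -- integrals over t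
  have c1 : IsCompact {t : F | ‖t‖ ≤ 1} := by
    have e : {t : F | ‖t‖ ≤ 1} = Metric.closedBall (0 : F) 1 := by
      ext t
      rw [Metric.mem_closedBall, dist_zero_right]
      rfl
    rw [e]
    exact isCompact_closedBall _ _
  have c2 : IsCompact {t : F | ‖t‖ ≤ ‖D.p‖} := by
    have e : {t : F | ‖t‖ ≤ ‖D.p‖} = Metric.closedBall (0 : F) ‖D.p‖ := by
      ext t
      rw [Metric.mem_closedBall, dist_zero_right]
      rfl
    rw [e]
    exact isCompact_closedBall _ _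
  have i1 : ∀ m, IntegrableOn (fun t : F => V D (A + t • B) 0 m) {t : F | ‖t‖ ≤ 1} D.μ :=
    fun m => (hMEA F D A B m).1.continuousOn.integrableOn_compact c1
  have i2 : ∀ m, IntegrableOn (fun t : F => V D (t • A + B) 0 m) {t : F | ‖t‖ ≤ ‖D.p‖} D.μ := by
    intro m
    have h := (hMEA F D B A m).1
    have e : (fun t : F => V D (B + t • A) 0 m) = fun t : F => V D (t • A + B) 0 m := by
      funext t
      rw [add_comm]
    rw [e] at h
    exact h.continuousOn.integrableOn_compact c2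
  have i3 : ∀ m, IntegrableOn (fun z : Fin 4 → F => dir D (qf A z) (qf B z) m) bx ν :=
    fun m => (dir_cont D A B m).continuousOn.integrableOn_compact hbxc
  have l1 : ∫ t in {t : F | ‖t‖ ≤ 1}, TT D.q (V D (A + t • B) 0) m ∂D.μ =
      (∫ t in {t : F | ‖t‖ ≤ 1}, V D (A + t • B) 0 m ∂D.μ) +
      ((D.q : ℝ) ^ 2 - D.q) * (∫ t in {t : F | ‖t‖ ≤ 1}, V D (A + t • B) 0 (m + 1) ∂D.μ) -
      (D.q : ℝ) ^ 3 * (∫ t in {t : F | ‖t‖ ≤ 1}, V D (A + t • B) 0 (m + 2) ∂D.μ) := by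
    unfold TT
    rw [integral_sub, integral_add, integral_const_mul, integral_const_mul]
    · exact i1 m
    · exact (i1 (m + 1)).const_mul _
    · exact (i1 m).add ((i1 (m + 1)).const_mul _)
    · exact (i1 (m + 2)).const_mul _
  have l2 : ∫ t in {t : F | ‖t‖ ≤ ‖D.p‖}, TT D.q (V D (t • A + B) 0) m ∂D.μ =
      (∫ t in {t : F | ‖t‖ ≤ ‖D.p‖}, V D (t • A + B) 0 m ∂D.μ) +
      ((D.q : ℝ) ^ 2 - D.q) * (∫ t in {t : F | ‖t‖ ≤ ‖D.p‖}, V D (t • A + B) 0 (m + 1) ∂D.μ) -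
      (D.q : ℝ) ^ 3 * (∫ t in {t : F | ‖t‖ ≤ ‖D.p‖}, V D (t • A + B) 0 (m + 2) ∂D.μ) := by
    unfold TT
    rw [integral_sub, integral_add, integral_const_mul, integral_const_mul]
    · exact i2 m
    · exact (i2 (m + 1)).const_mul _
    · exact (i2 m).add ((i2 (m + 1)).const_mul _)
    · exact (i2 (m + 2)).const_mul _
  have l3 : ∫ z in bx, TT D.q (dir D (qf A z) (qf B z)) m ∂ν =
      (∫ z in bx, dir D (qf A z) (qf B z) m ∂ν) +
      ((D.q : ℝ) ^ 2 - D.q) * (∫ z in bx, dir D (qf A z) (qf B z) (m + 1) ∂ν) -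
      (D.q : ℝ) ^ 3 * (∫ z in bx, dir D (qf A z) (qf B z) (m + 2) ∂ν) := by
    unfold TT
    rw [integral_sub, integral_add, integral_const_mul, integral_const_mul]
    · exact i3 m
    · exact (i3 (m + 1)).const_mul _
    · exact (i3 m).add ((i3 (m + 1)).const_mul _)
    · exact (i3 (m + 2)).const_mul _
  have a0 := hAVF F D A B m
  have a1 := hAVF F D A B (m + 1)
  have a2 := hAVF F D A B (m + 2)
  have hsum : (∫ t in {t : F | ‖t‖ ≤ 1}, TT D.q (V D (A + t • B) 0) m ∂D.μ) +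
        (∫ t in {t : F | ‖t‖ ≤ ‖D.p‖}, TT D.q (V D (t • A + B) 0) m ∂D.μ) =
      ∫ z in bx, TT D.q (dir D (qf A z) (qf B z)) m ∂ν := by
    rw [l1, l2, l3]
    linear_combination a0 + ((D.q : ℝ) ^ 2 - D.q) * a1 - (D.q : ℝ) ^ 3 * a2
  rw [hsum]
  -- the level sets
  set E : ℕ → Set (Fin 4 → F) := fun k => {z | max ‖qf A z‖ ‖qf B z‖ ≤ ‖D.p‖ ^ k} with hE
  have hEm : ∀ k, MeasurableSet (E k) := by
    intro k
    apply IsClosed.measurableSet
    exact isClosed_le ((qf_cont A).norm.max (qf_cont B).norm) continuous_const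
  have hfun : (fun z : Fin 4 → F => TT D.q (dir D (qf A z) (qf B z)) m) =
      fun z => (E m).indicator (fun _ => (D.q : ℝ)⁻¹) z -
        (E (m + 2)).indicator (fun _ => (D.q : ℝ) ^ 3) z := by
    funext z
    rw [dir_TT D hDIR hNRM]
    simp only [Set.indicator_apply]
    rfl
  have hind : ∀ (k : ℕ) (c : ℝ), ∫ z in bx, (E k).indicator (fun _ => c) z ∂ν =
      vol D {z : Fin 4 → F | (∀ i, ‖z i‖ ≤ 1) ∧ max ‖qf A z‖ ‖qf B z‖ ≤ ‖D.p‖ ^ k} * c := by
    intro k c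
    rw [setIntegral_indicator (hEm k), setIntegral_const]
    rfl
  have hint : ∀ (k : ℕ) (c : ℝ), IntegrableOn (fun z => (E k).indicator (fun _ => c) z) bx ν := by
    intro k c
    apply Integrable.indicator _ (hEm k)
    exact integrableOn_const hbxc.measure_lt_top.ne
  rw [hfun, integral_sub (hint _ _) (hint _ _), hind, hind, hm0 m hm]
  field_simp
  ring

end Pool.Agent.H17.N6D
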