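import Pool.Agent.H28.N6.Targets

set_option autoImplicit false
open MeasureTheory Pool.Agent.H28.N6

namespace Pool.Agent.H17.N6D

theorem pf_TEB (hANI : T_ANI) (hBAL : T_BAL) : T_TEB := by
  intro F _ _ _ _ _ D h hh l
  obtain ⟨-, c, C, hc, hC⟩ := hANI F D 3 h hh
  obtain ⟨b1, -, -, b4, -, -⟩ := hBAL F D (Fin 3)
  have hp0 : 0 < ‖D.p‖ := norm_pos_iff.2 D.p0
  have hp1 : ‖D.p‖ ≤ 1 := D.p1.le
  have hq2 : (2 : ℝ) ≤ D.q := by exact_mod_cast D.hq
  have hs1 : 1 ≤ Real.sqrt D.q := by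
    rw [Real.one_le_sqrt]
    linarith
  have hs0 : 0 < Real.sqrt D.q := by linarith
  have hbox : Bornology.IsBounded {z : Fin 3 → F | ∀ i, ‖z i‖ ≤ 1} := by
    rw [isBounded_iff_forall_norm_le]
    exact ⟨1, fun z hz => (pi_norm_le_iff_of_nonneg zero_le_one).2 hz⟩
  have hmono : ∀ (a b : F) (m m' : ℕ),
      ({z : Fin 3 → F | (∀ i, ‖z i‖ ≤ 1) ∧ ‖qf h z + a‖ ≤ ‖D.p‖ ^ m} ⊆
        {z : Fin 3 → F | (∀ i, ‖z i‖ ≤ 1) ∧ ‖qf h z + b‖ ≤ ‖D.p‖ ^ m'}) →
      V D h a m ≤ V D h b m' := by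
    intro a b m m' hs
    exact b4 _ _ hs (hbox.subset fun z hz => hz.1)
  have hnn : ∀ (a : F) (m : ℕ), 0 ≤ V D h a m := fun a m => ENNReal.toReal_nonneg
  have hle1 : ∀ (a : F) (m : ℕ), V D h a m ≤ 1 := by
    intro a m
    have e := b1 0
    simp only [pow_zero, inv_one] at e
    rw [← e]
    exact b4 _ _ (fun z hz => hz.1) hbox
  have hdec : ∀ (a : F) (m k : ℕ), V D h a (m + k) ≤ V D h a m := by
    intro a m k
    apply hmono
    intro z hz
    exact ⟨hz.1, hz.2.trans (pow_le_pow_of_le_one hp0.le hp1 (Nat.le_add_right _ _))⟩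
  have hmain : ∀ (a : F) (m : ℕ), ‖D.p‖ ^ l * ‖a‖ ≤ ‖D.p‖ ^ m →
      V D h a m ≤ (|C| + 1) * Real.sqrt D.q ^ (3 * l) * (Real.sqrt D.q ^ (3 * m))⁻¹ := by
    intro a m ham
    rcases le_or_gt l m with hlm | hlm
    · obtain ⟨k, rfl⟩ := Nat.exists_eq_add_of_le hlm
      have ha : ‖a‖ ≤ ‖D.p‖ ^ k := by
        rw [pow_add] at ham
        exact le_of_mul_le_mul_left ham (pow_pos hp0 l)
      have h1 : V D h a (l + k) ≤ V D h 0 k := by
        apply hmono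
        intro z hz
        refine ⟨hz.1, ?_⟩
        have e : qf h z + 0 = (qf h z + a) + -a := by ring
        rw [e]
        refine (IsUltrametricDist.norm_add_le_max _ _).trans (max_le ?_ (by rwa [norm_neg]))
        exact hz.2.trans (pow_le_pow_of_le_one hp0.le hp1 (Nat.le_add_left _ _))
      have h2 := (hC k).2
      have h3 : C * (Real.sqrt D.q ^ (3 * k))⁻¹ ≤
          (|C| + 1) * (Real.sqrt D.q ^ (3 * k))⁻¹ := by
        apply mul_le_mul_of_nonneg_right _ (by positivity)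
        linarith [le_abs_self C]
      have e : (|C| + 1) * Real.sqrt D.q ^ (3 * l) * (Real.sqrt D.q ^ (3 * (l + k)))⁻¹ =
          (|C| + 1) * (Real.sqrt D.q ^ (3 * k))⁻¹ := by
        rw [mul_add, pow_add, mul_inv, mul_assoc, ← mul_assoc (Real.sqrt D.q ^ (3 * l)),
          mul_inv_cancel₀ (pow_pos hs0 _).ne', one_mul]
      rw [e]
      linarith
    · refine (hle1 a m).trans ?_
      have h1 : (1 : ℝ) ≤ Real.sqrt D.q ^ (3 * l) * (Real.sqrt D.q ^ (3 * m))⁻¹ := by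
        rw [← div_eq_mul_inv, one_le_div (pow_pos hs0 _)]
        exact pow_le_pow_right₀ hs1 (by omega)
      have h2 : (1 : ℝ) ≤ |C| + 1 := by linarith [abs_nonneg C]
      rw [mul_assoc]
      nlinarith
  refine ⟨(1 + (D.q : ℝ) ^ 2 + (D.q : ℝ) ^ 3) * ((|C| + 1) * Real.sqrt D.q ^ (3 * l)), ?_⟩
  intro a m ham
  have h0 := hmain a m ham
  have h1 := hdec a m 1
  have h2 := hdec a m 2
  have n0 := hnn a m
  have n1 := hnn a (m + 1)
  have n2 := hnn a (m + 2)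
  have hTT : |TT D.q (V D h a) m| ≤ (1 + (D.q : ℝ) ^ 2 + (D.q : ℝ) ^ 3) * V D h a m := by
    unfold TT
    have hq3 : 0 ≤ (D.q : ℝ) ^ 3 := by positivity
    have hq4 : 0 ≤ (D.q : ℝ) ^ 2 - D.q := by nlinarith
    have hq5 : 0 ≤ (D.q : ℝ) ^ 2 := by positivity
    have m1 := mul_le_mul_of_nonneg_left h1 hq4
    have m2 := mul_le_mul_of_nonneg_left h2 hq3
    have m3 := mul_nonneg hq4 n1
    have m4 := mul_nonneg hq3 n2
    have m5 := mul_nonneg hq3 n0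
    have m6 := mul_nonneg hq5 n0
    have m7 : 0 ≤ (D.q : ℝ) * V D h a m := by positivity
    rw [abs_le]
    constructor
    · nlinarith
    · nlinarith
  calc |TT D.q (V D h a) m| ≤ (1 + (D.q : ℝ) ^ 2 + (D.q : ℝ) ^ 3) * V D h a m := hTT
    _ ≤ (1 + (D.q : ℝ) ^ 2 + (D.q : ℝ) ^ 3) *
        ((|C| + 1) * Real.sqrt D.q ^ (3 * l) * (Real.sqrt D.q ^ (3 * m))⁻¹) := by
      apply mul_le_mul_of_nonneg_left h0 (by positivity)
    _ = _ := by ring

end Pool.Agent.H17.N6D
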